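import Pool.Agent.helper840_dilute.Params

open MeasureTheory Filter Topology

namespace Pool.Agent.helper840_dilute

/-- upper bound for the neutral dilute hydrogen cluster -/
theorem groundEnergy_upper {w : ℝ} (hw : 1 ≤ w) (m : ℕ) (hm : (m : ℝ) ≤ w ^ 66)
    (Y : Fin m → R3) (hY : ∀ l l', l ≠ l' → pR w ≤ ‖Y l - Y l'‖) :
    groundEnergy Y (fun _ => 1) m ≤
      m * (-(1 / 4) + pκ w / w ^ 66 / 8 + pκ w / w ^ 66 / 100) := by
  have hw0 : 0 < w := by linarith
  have hgood := good_params hw m hm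
  have hR0 : 0 < pR w := by unfold pR; positivity
  have hκ0 : 0 < pκ w := by unfold pκ; positivity
  have hκ1 : pκ w ≤ 1 / 448 := by
    unfold pκ
    apply one_div_le_one_div_of_le (by norm_num)
    have := pow_ge_one hw 6; linarith
  set ε : ℝ := pκ w / w ^ 66 with hε
  have hε0 : 0 < ε := by positivity
  have hε1 : ε ≤ 1 / 448 := by
    rw [hε, div_le_iff₀ (by positivity)]
    have := pow_ge_one hw 66
    nlinarith
  set α : ℝ := 1 / 2 - ε / 8 with hα
  have hα0 : 0.49 ≤ α := by rw [hα]; norm_num; linarith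
  have hα1 : α ≤ 1 / 2 := by rw [hα]; linarith
  set ρ : ℝ := 800 * w ^ 33 with hρ
  have hρ1 : 800 ≤ ρ := by rw [hρ]; have := pow_ge_one hw 33; linarith
  have hρ0 : 0 < ρ := by linarith
  have hαε : 2 * α + α ^ 2 * ε ≤ 1 := by
    have : α ^ 2 ≤ 1 / 4 := by nlinarith
    rw [hα] at *
    nlinarith
  have horb : Orb ρ (Ut ρ α ε) (ut ρ α ε) := orb_ut hρ0 hε0
  have hen := ut_energy hρ0 (by nlinarith) (by linarith) hα1 hε0 (by linarith) hαε
  have hR : 2 * ρ < pR w := by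
    rw [hρ]; unfold pR
    have : 0 < w ^ 33 := by positivity
    linarith
  have hpos : 0 < ∫ z, ut ρ α ε z ^ 2 := by
    have hiu : Integrable (fun z => ut ρ α ε z ^ 2) := by
      have := integrable_normsq_real (μ := (volume : Measure R3))
        (ut_smooth (α := α) hρ0 hε0).continuous (ut_hcs hρ0 hε0)
        (continuous_const (y := (1 : ℝ)))
      simpa using this
    have h1 : ∫ z in Metric.ball (0 : R3) 1, Real.exp (-2) ≤ ∫ z in Metric.ball (0 : R3) 1,
        ut ρ α ε z ^ 2 := by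
      refine setIntegral_mono_on (integrableOn_const measure_ball_lt_top.ne) hiu.integrableOn
        measurableSet_ball (fun z hz => ?_)
      exact ut_one (by nlinarith) hα1 hε0 (by linarith) z hz
    have h2 : ∫ z in Metric.ball (0 : R3) 1, ut ρ α ε z ^ 2 ≤ ∫ z, ut ρ α ε z ^ 2 :=
      setIntegral_le_integral hiu (ae_of_all _ (fun z => sq_nonneg _))
    rw [setIntegral_const, smul_eq_mul] at h1
    have h3 : 0 < (volume : Measure R3).real (Metric.ball (0 : R3) 1) := by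
      rw [measureReal_def]
      exact ENNReal.toReal_pos (Metric.measure_ball_pos _ _ (by norm_num)).ne' measure_ball_lt_top.ne
    have h4 : 0 < (volume : Measure R3).real (Metric.ball (0 : R3) 1) * Real.exp (-2) := by
      positivity
    linarith
  have hpsiE := psi_energy horb hR Y hY hpos hen.2
  have hmem : energy Y (fun _ => 1) (psi (ut ρ α ε) Y) ∈
      {E : ℝ | ∃ ψ : WaveFn m, IsTrial ψ ∧ energy Y (fun _ => 1) ψ = E} :=
    ⟨_, psi_trial horb hR Y hY hpos, rfl⟩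
  have hle := csInf_le (bddBelow_energy hgood Y hR0 hY m) hmem
  have h5 : groundEnergy Y (fun _ => 1) m ≤
      m * (-α ^ 2 + 256 * ρ * Real.exp (2 - 7 / 5 * α * ρ)) := hle.trans hpsiE
  refine h5.trans ?_
  refine mul_le_mul_of_nonneg_left ?_ (by positivity)
  have h6 : -α ^ 2 ≤ -(1 / 4) + ε / 8 := by rw [hα]; nlinarith
  -- the exponentially small error
  have h7 : 256 * ρ * Real.exp (2 - 7 / 5 * α * ρ) ≤ ε / 100 := by
    have e2 : Real.exp (2 - 7 / 5 * α * ρ) = Real.exp 2 * Real.exp (-(7 / 5 * α * ρ)) := by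
      rw [← Real.exp_add]; congr 1
    have e3 : Real.exp 2 ≤ 7.39 := by
      have h := Real.exp_one_lt_d9
      have : Real.exp 2 = Real.exp 1 * Real.exp 1 := by rw [← Real.exp_add]; norm_num
      rw [this]
      have h0 := Real.exp_pos 1
      nlinarith
    have e4 : Real.exp (-(7 / 5 * α * ρ)) ≤ 120 / (0.686 * ρ) ^ 5 := by
      have h8 : Real.exp (-(7 / 5 * α * ρ)) ≤ Real.exp (-(0.686 * ρ)) := by
        apply Real.exp_le_exp.2
        nlinarith
      have h9 := exp_neg_le 5 (x := 0.686 * ρ) (by positivity)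
      have hf : ((5 : ℕ).factorial : ℝ) = 120 := by norm_num [Nat.factorial]
      rw [hf] at h9
      exact h8.trans h9
    have e5 : ε = 1 / 448 / (w ^ 6 * w ^ 66) := by
      rw [hε]; unfold pκ; field_simp
    calc 256 * ρ * Real.exp (2 - 7 / 5 * α * ρ)
        = 256 * ρ * (Real.exp 2 * Real.exp (-(7 / 5 * α * ρ))) := by rw [e2]
      _ ≤ 256 * ρ * (7.39 * (120 / (0.686 * ρ) ^ 5)) := by
          refine mul_le_mul_of_nonneg_left ?_ (by positivity)
          exact mul_le_mul e3 e4 (Real.exp_pos _).le (by norm_num)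
      _ = (256 * 7.39 * 120 / 0.686 ^ 5) / ρ ^ 4 := by field_simp
      _ ≤ (256 * 7.39 * 120 / 0.686 ^ 5) / (800 ^ 4 * (w ^ 6 * w ^ 66)) := by
          have h10 : w ^ 6 * w ^ 66 ≤ w ^ 132 := by
            rw [← pow_add]; exact pow_le_pow_right₀ hw (by norm_num)
          have h11 : ρ ^ 4 = 800 ^ 4 * w ^ 132 := by rw [hρ]; ring
          rw [h11]
          apply div_le_div_of_nonneg_left (by norm_num) (by positivity)
          exact mul_le_mul_of_nonneg_left h10 (by norm_num)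
      _ = (256 * 7.39 * 120 / 0.686 ^ 5 / 800 ^ 4) / (w ^ 6 * w ^ 66) := by
          rw [← div_div]
      _ ≤ (1 / 448 / 100) / (w ^ 6 * w ^ 66) :=
          div_le_div_of_nonneg_right (by norm_num) (by positivity)
      _ = ε / 100 := by rw [e5]; ring
  linarith

end Pool.Agent.helper840_dilute

namespace Pool.Agent.Results.MP_59f35a_mp.DiluteHydrogen

open Pool.Agent.helper840_dilute

/-- **Neutral dissociation of dilute hydrogen molecules.** All nuclear charges are one. If within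
each of the two groups the nuclei are at mutual distance at least `2400 √M`, where `M` is the total
number of nuclei, then the neutral split is the only minimiser of `S`, with an explicit gap that is
linear in the number of transferred electrons. -/
theorem result (M₁ M₂ : ℕ) (hM₁ : 1 ≤ M₁) (hM₂ : 1 ≤ M₂) (Y₁ : Fin M₁ → R3) (Y₂ : Fin M₂ → R3)
    (h₁ : ∀ l l', l ≠ l' → 2400 * √((M₁ : ℝ) + M₂) ≤ ‖Y₁ l - Y₁ l'‖)
    (h₂ : ∀ l l', l ≠ l' → 2400 * √((M₁ : ℝ) + M₂) ≤ ‖Y₂ l - Y₂ l'‖)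
    (N₁ : ℕ) (hN₁ : N₁ ≤ M₁ + M₂) (hne : N₁ ≠ M₁) :
    splitEnergy Y₁ (fun _ => 1) Y₂ (fun _ => 1) (M₁ + M₂) M₁
        + |(N₁ : ℝ) - M₁| / (600 * ((M₁ : ℝ) + M₂) ^ ((1 : ℝ) / 11))
      ≤ splitEnergy Y₁ (fun _ => 1) Y₂ (fun _ => 1) (M₁ + M₂) N₁ := by
  have hM₁' : (1 : ℝ) ≤ M₁ := by exact_mod_cast hM₁
  have hM₂' : (1 : ℝ) ≤ M₂ := by exact_mod_cast hM₂
  set M : ℝ := (M₁ : ℝ) + M₂ with hM
  have hM1 : 1 ≤ M := by linarith
  have hM0 : 0 < M := by linarith
  set w : ℝ := M ^ ((1 : ℝ) / 66) with hw_def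
  have hw : 1 ≤ w := Real.one_le_rpow hM1 (by norm_num)
  have hw0 : 0 < w := by linarith
  have hw66 : w ^ 66 = M := by
    rw [hw_def, ← Real.rpow_natCast, ← Real.rpow_mul hM0.le]; norm_num
  have hw33 : w ^ 33 = √M := by
    rw [← hw66, show w ^ 66 = (w ^ 33) ^ 2 by ring, Real.sqrt_sq (by positivity)]
  have hw6 : w ^ 6 = M ^ ((1 : ℝ) / 11) := by
    rw [hw_def, ← Real.rpow_natCast, ← Real.rpow_mul hM0.le]; norm_num
  have hRw : pR w = 2400 * √M := by unfold pR; rw [hw33]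
  rw [← hRw] at h₁ h₂
  have hR0 : 0 < pR w := by unfold pR; positivity
  have hκ0 : 0 < pκ w := by unfold pκ; positivity
  have hκ1 : pκ w ≤ 1 / 448 := by
    unfold pκ
    apply one_div_le_one_div_of_le (by norm_num)
    have := pow_ge_one hw 6; linarith
  have hL0 : L0 (pa w) ≤ 1 / 400 := by
    refine (pL0_le hw).trans ?_
    rw [div_le_iff₀ (by positivity)]
    have := pow_ge_one hw 6; nlinarith
  have hLn : 0 ≤ L0 (pa w) := L0_nonneg (by unfold pa; positivity)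
  have hm₁ : (M₁ : ℝ) ≤ w ^ 66 := by rw [hw66]; linarith
  have hm₂ : (M₂ : ℝ) ≤ w ^ 66 := by rw [hw66]; linarith
  have hδ0 : 0 ≤ pδ w := by
    unfold pδ
    have h1 : 0 ≤ pδ₁ w := by unfold pδ₁ pb; positivity
    have h2 : 0 ≤ pη w := by unfold pη pb pa; positivity
    have h3 := pg_nonneg hw
    exact add_nonneg (add_nonneg h1 h2) (mul_nonneg (pow_nonneg hw0.le 66) h3)
  -- lower bounds
  have hneg : ∀ k m : ℕ, (-((k : ℝ) / 4) - k * pδ w + pκ w * max ((k : ℝ) - m) 0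
      + ((k : ℝ) - m) * L0 (pa w) / 2) ≤ 0 := by
    intro k m
    have hk : (0 : ℝ) ≤ k := Nat.cast_nonneg k
    have hmn : (0 : ℝ) ≤ m := Nat.cast_nonneg m
    have h1 : max ((k : ℝ) - m) 0 ≤ k := max_le (by linarith) hk
    have h2 : pκ w * max ((k : ℝ) - m) 0 ≤ 1 / 448 * k :=
      mul_le_mul hκ1 h1 (le_max_right _ _) (by norm_num)
    have h3 : ((k : ℝ) - m) * L0 (pa w) ≤ k * (1 / 400) := by nlinarith
    have h4 : 0 ≤ (k : ℝ) * pδ w := mul_nonneg hk hδ0
    linarith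
  have hlow₁ := groundEnergy_lower (good_params hw M₁ hm₁) Y₁ hR0 h₁ N₁ (hneg N₁ M₁)
  have hlow₂ := groundEnergy_lower (good_params hw M₂ hm₂) Y₂ hR0 h₂ (M₁ + M₂ - N₁)
    (hneg (M₁ + M₂ - N₁) M₂)
  have hup₁ := groundEnergy_upper hw M₁ hm₁ Y₁ h₁
  have hup₂ := groundEnergy_upper hw M₂ hm₂ Y₂ h₂
  have hcast : ((M₁ + M₂ - N₁ : ℕ) : ℝ) = (M₁ : ℝ) + M₂ - N₁ := by
    rw [Nat.cast_sub hN₁]; push_cast; ring
  have hsub : M₁ + M₂ - M₁ = M₂ := by omega
  rw [hcast] at hlow₂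
  unfold splitEnergy
  rw [hsub]
  -- the positive part identity
  have hmax : max ((N₁ : ℝ) - M₁) 0 + max ((M₁ : ℝ) + M₂ - N₁ - M₂) 0 = |(N₁ : ℝ) - M₁| := by
    rcases le_total (N₁ : ℝ) M₁ with h | h
    · rw [max_eq_right (by linarith), max_eq_left (by linarith), abs_of_nonpos (by linarith)]
      ring
    · rw [max_eq_left (by linarith), max_eq_right (by linarith), abs_of_nonneg (by linarith)]
      ring
  have habs : 1 ≤ |(N₁ : ℝ) - M₁| := by
    rcases lt_or_gt_of_ne hne with h | h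
    · have : (N₁ : ℝ) + 1 ≤ M₁ := by exact_mod_cast h
      rw [abs_of_nonpos (by linarith)]; linarith
    · have : (M₁ : ℝ) + 1 ≤ N₁ := by exact_mod_cast h
      rw [abs_of_nonneg (by linarith)]; linarith
  -- total errors
  have herr1 : M * pδ w ≤ pκ w / 80 + pκ w / 800 + pκ w / 11 := by
    have h1 := pη_le hw
    have h2 := pδ₁_le hw
    have h3 := pg_le hw
    rw [← hw66]
    unfold pδ
    rw [mul_add, mul_add]
    linarith
  have herr2 : M * (pκ w / w ^ 66 / 8 + pκ w / w ^ 66 / 100) = pκ w / 8 + pκ w / 100 := by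
    rw [hw66]; field_simp
  have hgap : |(N₁ : ℝ) - M₁| / (600 * M ^ ((1 : ℝ) / 11)) ≤ 3 / 4 * pκ w * |(N₁ : ℝ) - M₁| := by
    rw [← hw6]
    unfold pκ
    have h0 : 0 < w ^ 6 := by positivity
    rw [div_le_iff₀ (by positivity)]
    have : 3 / 4 * (1 / (448 * w ^ 6)) * |(N₁ : ℝ) - M₁| * (600 * w ^ 6)
        = 1800 / 1792 * |(N₁ : ℝ) - M₁| := by field_simp; ring
    rw [this]
    linarith
  have hsumlow : -(M / 4) - M * pδ w + pκ w * |(N₁ : ℝ) - M₁| ≤
      groundEnergy Y₁ (fun _ => 1) N₁ + groundEnergy Y₂ (fun _ => 1) (M₁ + M₂ - N₁) := by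
    rw [← hmax]
    have e : -(M / 4) - M * pδ w + pκ w * (max ((N₁ : ℝ) - M₁) 0
        + max ((M₁ : ℝ) + M₂ - N₁ - M₂) 0) =
      (-((N₁ : ℝ) / 4) - N₁ * pδ w + pκ w * max ((N₁ : ℝ) - M₁) 0
        + ((N₁ : ℝ) - M₁) * L0 (pa w) / 2) +
      (-(((M₁ : ℝ) + M₂ - N₁) / 4) - ((M₁ : ℝ) + M₂ - N₁) * pδ w
        + pκ w * max ((M₁ : ℝ) + M₂ - N₁ - M₂) 0
        + ((M₁ : ℝ) + M₂ - N₁ - M₂) * L0 (pa w) / 2) := by
      rw [hM]; ring
    rw [e]
    exact add_le_add hlow₁ hlow₂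
  have hsumup : groundEnergy Y₁ (fun _ => 1) M₁ + groundEnergy Y₂ (fun _ => 1) M₂ ≤
      -(M / 4) + (pκ w / 8 + pκ w / 100) := by
    rw [← herr2]
    have e : -(M / 4) + M * (pκ w / w ^ 66 / 8 + pκ w / w ^ 66 / 100) =
        M₁ * (-(1 / 4) + pκ w / w ^ 66 / 8 + pκ w / w ^ 66 / 100) +
        M₂ * (-(1 / 4) + pκ w / w ^ 66 / 8 + pκ w / w ^ 66 / 100) := by
      rw [hM]; ring
    rw [e]
    exact add_le_add hup₁ hup₂
  nlinarith

end Pool.Agent.Results.MP_59f35a_mp.DiluteHydrogen
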